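import Pool.Agent.H669Z.Hech.Defs

/-!
# Twin families of reals, and the corresponding sentence of the forcing language
-/

set_option autoImplicit false

namespace Pool.Agent.H50Z.Twin

open Pool.Agent.Helper292.ForceCH Pool.Agent.H669Z.Hech

/-- Every proper initial segment of `K` is covered by a family indexed by the countable
ordinals. -/
def Short (K : Type) [LinearOrder K] : Prop := ∀ k : K, ∃ e : Om → K, ∀ j < k, ∃ α, e α = j

/-- `x` is outside one of the open sets coded by the `U N`. -/
def Avoids (x : ℕ → Bool) (U : ℕ → Set (List Bool)) : Prop := ∃ N, ¬ InOpen x (U N)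

/-- There are points `a (α, b)` and `r k` of the Cantor space such that `a (α, false)` and
`a (β, true)` differ infinitely often, and every countable union of closed sets which contains
all `a (α, false)`, or all `a (α, true)`, contains `r k` for all large `k`. -/
def Twin (K : Type) [LinearOrder K] : Prop :=
  ∃ (a : Om × Bool → ℕ → Bool) (r : K → ℕ → Bool),
    (∀ α β m, ∃ n c, m ≤ n ∧ a (α, false) n = c ∧ a (β, true) n = !c) ∧
    ∀ (U : ℕ → Set (List Bool)) (b : Bool), (∀ α, Avoids (a (α, b)) U) →
      ∃ k₀, ∀ k, k₀ ≤ k → Avoids (r k) U

variable {P : Type} [Preorder P]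

/-- The sentence `Avoids x U` for names `x`, `U`. -/
def FAvoids (x : ℕ → Bool → Set P) (U : ℕ → List Bool → Set P) : Set P :=
  fex fun N => fnot (FInOpen x (U N))

variable (P)

/-- The sentence `Twin K`. -/
def FTwin (K : Type) [LinearOrder K] : Set P :=
  fex fun a : Om × Bool → ℕ → Bool → Set P => fex fun r : K → ℕ → Bool → Set P =>
    fand (fand (fall fun i => IsFun (a i)) (fall fun k => IsFun (r k)))
      (fand (fall fun α => fall fun β => fall fun m => fex fun n => fex fun c =>
          fand (fground (m ≤ n)) (fand (meets (a (α, false) n c)) (meets (a (β, true) n (!c)))))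
        (fall fun U : ℕ → List Bool → Set P => fall fun b : Bool =>
          fimp (fall fun α => FAvoids (a (α, b)) U)
            (fex fun k₀ => fall fun k => fimp (fground (k₀ ≤ k)) (FAvoids (r k) U))))

end Pool.Agent.H50Z.Twin
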