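import Pool.Agent.H50Z.Twin.Defs
import Pool.Agent.H669Z.Hech.Force

/-!
# The iteration of Hechler forcing over many symmetric coordinates forces `Twin`
-/

set_option autoImplicit false

namespace Pool.Agent.H50Z.Twin

open Pool.Agent.Helper292.ForceCH Pool.Agent.H669Z.Hech Cardinal

abbrev J1 : Type := ((Om × Bool) ⊕ Om2) ⊕ Om2

def rk1 : J1 → WithBot Om2 := Sum.elim (fun _ => ⊥) fun k => (k : WithBot Om2)

theorem exists_above (S : Om → Set Om2) (hS : ∀ a, (S a).Countable) :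
    ∃ k : Om2, ∀ a, ∀ j ∈ S a, j < k := by
  obtain ⟨k, hk⟩ := exists_level (fun a => Sum.inr '' S a) fun a => (hS a).image _
  exact ⟨k, fun a j hj => by simpa [rk0] using hk a (Sum.inr j) ⟨j, hj, rfl⟩⟩

theorem exists_level1 (S : Om → Set J1) (hS : ∀ a, (S a).Countable) :
    ∃ k : Om2, ∀ a, ∀ j ∈ S a, rk1 j < (k : WithBot Om2) := by
  obtain ⟨k, hk⟩ := exists_above (fun a => Sum.inr ⁻¹' S a)
    fun a => (hS a).preimage Sum.inr_injective
  refine ⟨k, fun a j hj => ?_⟩
  rcases j with i | k'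
  · simp [rk1]
  · simpa [rk1] using hk a k' hj

theorem short : Short Om2 := by
  intro k
  have h12 : (ℵ_ 2 : Cardinal.{0}) = Order.succ ℵ₁ := by
    rw [succ_aleph]; norm_num
  have h1 : #(Set.Iio k) < ℵ_ 2 := by
    have := mk_Iio_lt k (by simp)
    simpa using this
  replace h1 := Order.lt_succ_iff.1 (h1.trans_eq h12)
  have hOm : #Om = ℵ₁ := by simp
  obtain ⟨i⟩ := (Cardinal.le_def _ _).1 (h1.trans hOm.ge)
  classical
  refine ⟨fun α => if h : ∃ j, i j = α then h.choose.1 else k, fun j hj => ⟨i ⟨j, hj⟩, ?_⟩⟩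
  have h : ∃ j', i j' = i ⟨j, hj⟩ := ⟨_, rfl⟩
  simp only [dif_pos h]
  rw [i.injective h.choose_spec]

theorem forces_bounded (p : Cond rk1) : p ∈ FBounded (Cond rk1) := by
  refine fun f => fimp_of fun q _ hq => ?_
  choose F S h1 h2 h3 h4 using fun a => capture (f a) q (hq a)
  obtain ⟨k, hk⟩ := exists_level1 S h1
  refine fex_of_mem (gen id (Sum.inr k))
    (down_fand (down_isFun _) (down_fall fun _ => down_FLeStar _ _)) ⟨gen_isFun _ _ _, fun a => ?_⟩
  exact dominate (adm_of_global (h1 a) (hk a) (h2 a) (h3 a)) (h4 a)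

theorem forces_scale (p : Cond rk1) : p ∈ FScale (Cond rk1) Om2 := by
  refine fex_of_mem (fun k => gen id (Sum.inr k))
    (down_fand (down_fall fun _ => down_isFun _)
      (down_fand (down_fall fun _ => down_fall fun _ => down_fimp _ _)
        (down_fall fun _ => down_fimp _ _)))
    ⟨fun k => gen_isFun _ _ _, fun k k' => fimp_of fun q _ hk => ?_,
      fun f => fimp_of fun q _ hq => ?_⟩
  · rcases (show k ≤ k' from hk).eq_or_lt with rfl | hk'
    · refine fex_of_mem 0 (down_fall fun _ => down_fall fun _ => down_fall fun _ => down_fimp _ _)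
        fun n v w => fimp_of ?_
      rintro t - ⟨-, h1, h2⟩
      exact (fun_unique (gen_isFun id (Sum.inr k) t) h1 h2).le
    · refine dominate (F := fun x => x (Sum.inr k))
        (adm_of_global (S := {Sum.inr k}) (Set.countable_singleton _) ?_ ?_ fun m t => ?_)
        fun t _ m v hv => exists_of_meets (down_gen id _ m v) hv
      · rintro _ rfl
        simpa [rk1] using hk'
      · intro x y h
        exact h _ rfl
      · obtain ⟨r, hr, h, -⟩ := longer t (Sum.inr k) (m + 1)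
        exact ⟨r, hr, r.1.f (Sum.inr k) m, fun x hx => (hx _).1 m (by omega)⟩
  · obtain ⟨F, S, h1, h2, h3, h4⟩ := capture f q hq
    obtain ⟨a⟩ : Nonempty Om := inferInstance
    obtain ⟨k, hk⟩ := exists_level1 (fun _ => S) fun _ => h1
    exact fex_of_mem k (down_FLeStar _ _) (dominate (adm_of_global h1 (hk a) h2 h3) h4)

theorem fin_gen1 (j : J1) (s : List Bool) (q : Cond rk1)
    (h : ∀ m : Fin s.length, q ∈ meets (gen (rk := rk1) Nat.bodd j m (s.get m))) :
    ∃ r ≤ q, ∀ x ∈ r.1.ext, ∀ m : Fin s.length, Nat.bodd (x j m) = s.get m := by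
  obtain ⟨r, hr, h1, -⟩ := longer q j s.length
  refine ⟨r, hr, fun x hx m => ?_⟩
  obtain ⟨t, ht, h2⟩ := exists_of_meets (down_gen _ _ _ _) (down_meets _ _ (h m) r hr)
  obtain ⟨y, hy⟩ := ext_nonempty t
  rw [(hx j).1 m (by omega), ← (ht hy j).1 m (by omega)]
  exact h2 y hy

theorem forces_twin (p : Cond rk1) : p ∈ FTwin (Cond rk1) Om2 := by
  classical
  refine fex_of_mem (fun i => gen Nat.bodd (Sum.inl (Sum.inl i))) (down_fex _)
    (fex_of_mem (fun k => gen Nat.bodd (Sum.inl (Sum.inr k)))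
      (down_fand (down_fand (down_fall fun _ => down_isFun _) (down_fall fun _ => down_isFun _))
        (down_fand (down_fall fun _ => down_fall fun _ => down_fall fun _ => down_fex _)
          (down_fall fun _ => down_fall fun _ => down_fimp _ _)))
      ⟨⟨fun i => gen_isFun _ _ _, fun i => gen_isFun _ _ _⟩, fun α β m => ?_,
        fun U b => fimp_of fun q _ hq => ?_⟩)
  · refine mem_fex.2 fun t0 _ => ?_
    set i : J1 := Sum.inl (Sum.inl (α, false)) with hi
    set i' : J1 := Sum.inl (Sum.inl (β, true)) with hi'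
    have hne : i ≠ i' := by simp [hi, hi']
    obtain ⟨t, ht, h0, -⟩ := longer t0 i m
    obtain ⟨r, hr, h1, h2⟩ := longer t i' (t.1.n i + 1)
    have h3 := h2 i hne le_rfl
    obtain ⟨k, hk⟩ := step r i
    obtain ⟨u, hu, h4, h5, -⟩ := hk
      (2 * k + if Nat.bodd (r.1.f i' (t.1.n i)) then 0 else 1) (by omega)
    refine ⟨u, hu.trans (hr.trans ht), t.1.n i, fex_of_mem
      (!Nat.bodd (r.1.f i' (t.1.n i)))
      (down_fand (fun _ h _ _ => h) (down_fand (down_meets _) (down_meets _)))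
        ⟨h0, meets_of_mem fun x hx => ?_, meets_of_mem fun x hx => ?_⟩⟩
    · rw [(hx i).1 _ (by omega), ← h3, h5, h3]
      cases Nat.bodd (r.1.f i' (t.1.n i)) <;> simp
    · rw [(hu hx i').1 _ (by omega), Bool.not_not]
  · let u : ℕ → ℕ → Set (Cond rk1) := fun c v =>
      {t | (v = 1 ∧ ∃ s : ℕ × List Bool, Encodable.encode s = c ∧ t ∈ meets (U s.1 s.2)) ∨
        (v = 0 ∧ ∀ s : ℕ × List Bool, Encodable.encode s = c → t ∈ fnot (meets (U s.1 s.2)))}
    have hud : ∀ c v, Down (u c v) := by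
      rintro c v t (⟨h1, s, h2, h3⟩ | ⟨h1, h2⟩) t' ht'
      · exact Or.inl ⟨h1, s, h2, down_meets _ _ h3 _ ht'⟩
      · exact Or.inr ⟨h1, fun s hs => down_fnot _ _ (h2 s hs) _ ht'⟩
    have hu : q ∈ IsFun u := by
      refine ⟨fun c => mem_fex.2 fun t _ => ?_, fun c v v' => mem_fimp.2 ?_⟩
      · by_cases h : ∃ t' ≤ t, ∃ s : ℕ × List Bool, Encodable.encode s = c ∧ t' ∈ meets (U s.1 s.2)
        · obtain ⟨t', ht', h⟩ := h
          exact ⟨t', ht', 1, meets_of_mem (Or.inl ⟨rfl, h⟩)⟩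
        · exact ⟨t, le_rfl, 0, meets_of_mem (Or.inr ⟨rfl, fun s hs t' ht' h' =>
            h ⟨t', ht', s, hs, h'⟩⟩)⟩
      · rintro t - ⟨h1, h2⟩
        obtain ⟨t1, ht1, h3⟩ := exists_of_meets (hud c v) h1
        obtain ⟨t2, ht2, h4⟩ := exists_of_meets (hud c v') (down_meets _ _ h2 t1 ht1)
        refine ⟨t, le_rfl, ?_⟩
        rcases hud c v t1 h3 t2 ht2 with ⟨a1, s, a2, a3⟩ | ⟨a1, a2⟩ <;>
          rcases h4 with ⟨b1, s', b2, b3⟩ | ⟨b1, b2⟩
        · exact a1.trans b1.symm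
        · exact absurd a3 (b2 s a2 t2 le_rfl)
        · exact absurd b3 (a2 s' b2 t2 le_rfl)
        · exact a1.trans b1.symm
    obtain ⟨F, S, h1, h2, -, h4⟩ := capture u q hu
    obtain ⟨S', h5, h6⟩ := exists_dep q
    have hinj : Function.Injective (fun z : Om × Bool => (Sum.inl (Sum.inl z) : J1)) :=
      fun z z' h => by simpa using h
    have hinj' : Function.Injective (fun z : Om2 => (Sum.inl (Sum.inr z) : J1)) :=
      fun z z' h => by simpa using h
    have hcount : ((fun z : Om × Bool => z.1) ''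
        ((fun z : Om × Bool => (Sum.inl (Sum.inl z) : J1)) ⁻¹' (S ∪ S'))).Countable :=
      ((h1.union h5).preimage hinj).image _
    obtain ⟨g, hg⟩ := Set.countable_iff_exists_subset_range.1 hcount
    obtain ⟨α, hα⟩ := exists_bound g
    obtain ⟨k₀, hk₀⟩ := exists_above
      (fun _ => (fun z : Om2 => (Sum.inl (Sum.inr z) : J1)) ⁻¹' (S ∪ S'))
      fun _ => (h1.union h5).preimage hinj'
    refine fex_of_mem k₀ (down_fall fun _ => down_fimp _ _) fun k => fimp_of fun q' hq' hk => ?_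
    have hk' : k₀ ≤ k := hk
    set i : J1 := Sum.inl (Sum.inl (α, b)) with hi
    set i' : J1 := Sum.inl (Sum.inr k) with hi'
    have hnot : i ∉ S ∪ S' := by
      intro hb
      obtain ⟨n, hn⟩ := hg ⟨(α, b), hb, rfl⟩
      exact absurd (hα n) (not_lt.2 hn.ge)
    have hnot' : i' ∉ S ∪ S' := fun hb => absurd (hk₀ α k hb) (not_lt.2 hk')
    let π : J1 → J1 := Equiv.swap i i'
    have hπ : ∀ j, π (π j) = j := fun j => Equiv.swap_apply_self _ _ j
    have hfix : ∀ j ∈ S ∪ S', π j = j := fun j hj =>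
      Equiv.swap_apply_of_ne_of_ne (by rintro rfl; exact hnot hj) (by rintro rfl; exact hnot' hj)
    have hrk : ∀ j, rk1 (π j) = rk1 j := by
      intro j
      simp only [π, Equiv.swap_apply_def]
      split_ifs with e1 e2
      · rw [e1]; rfl
      · rw [e2]; rfl
      · rfl
    have hππ : ∀ x : Pt J1, (x ∘ π) ∘ π = x := fun x => by
      funext j
      simp [hπ]
    have hle : ∀ {t t1 : Cond rk1}, t ≤ q → (∀ x, x ∈ t1.1.ext ↔ x ∘ π ∈ t.1.ext) → t1 ≤ q :=
      fun ht ht1 x hx => h6 (x ∘ π) x (fun j hj => by simp [hfix j (Or.inr hj)])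
        (ht ((ht1 x).1 hx))
    refine mem_fex.2 fun t ht => ?_
    obtain ⟨t1, ht1⟩ := exists_perm hπ hrk t
    have ht1q : t1 ≤ q := hle (ht.trans hq') ht1
    obtain ⟨r1, hr1, N, hN⟩ := mem_fex.1 (hq α) t1 ht1q
    obtain ⟨r4, hr4⟩ := exists_perm hπ hrk r1
    have hr4t : r4 ≤ t := fun x hx => by
      have := (ht1 _).1 (hr1 ((hr4 x).1 hx))
      rwa [hππ] at this
    refine ⟨r4, hr4t, N, fun w hw hwin => ?_⟩
    obtain ⟨w1, hw1, s, hs1, hs2⟩ := mem_fex.1 hwin w le_rfl
    obtain ⟨w2, hw2, hs3⟩ := fin_gen1 _ s w1 hs2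
    have hw2q : w2 ≤ q := hw2.trans (hw1.trans (hw.trans (hr4t.trans (ht.trans hq'))))
    obtain ⟨w3, hw3, hs4⟩ := h4 w2 hw2q (Encodable.encode (N, s)) 1
      (meets_of_mem (Or.inl ⟨rfl, (N, s), rfl, down_meets _ _ hs1 _ hw2⟩))
    obtain ⟨w4, hw4⟩ := exists_perm hπ hrk w3
    have hw4r : w4 ≤ r1 := fun x hx => by
      have := (hr4 _).1 (hw (hw1 (hw2 (hw3 ((hw4 x).1 hx)))))
      rwa [hππ] at this
    refine hN w4 hw4r (fex_of_mem s (down_fand (down_meets _) (down_fall fun _ => down_meets _))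
      ⟨meets_of_dense fun v hv => ?_, fun m => meets_of_mem fun x hx => ?_⟩)
    · by_contra hc
      push Not at hc
      obtain ⟨v1, hv1, h7⟩ := h4 v (hv.trans (hw4r.trans (hr1.trans ht1q)))
        (Encodable.encode (N, s)) 0
        (meets_of_mem (Or.inr ⟨rfl, fun s' hs' => by
          rw [Encodable.encode_injective hs']
          exact hc⟩))
      obtain ⟨x, hx⟩ := ext_nonempty v1
      have h8 := hs4 _ ((hw4 x).1 (hv (hv1 hx)))
      rw [h2 (x ∘ π) x fun j hj => by simp [hfix j (Or.inl hj)], h7 x hx] at h8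
      exact zero_ne_one h8
    · have := hs3 _ (hw3 ((hw4 x).1 hx)) m
      have e : π i' = i := Equiv.swap_apply_right _ _
      change (x (π i') m).bodd = _ at this
      rw [e] at this
      exact this

theorem exists_forcing : ∃ (P : Type) (_ : Preorder P) (K : Type) (_ : LinearOrder K),
    Nonempty P ∧ Short K ∧ ∀ p : P,
      p ∈ OmegaOnePreserved P ∧ p ∈ FBounded P ∧ p ∈ FScale P K ∧ p ∈ FTwin P K :=
  ⟨Cond rk1, inferInstance, Om2, inferInstance, ⟨top⟩, short, fun p =>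
    ⟨no_collapse ccc p, forces_bounded p, forces_scale p, forces_twin p⟩⟩

end Pool.Agent.H50Z.Twin
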