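import Pool.Agent.H50Z.Twin.Force
import Pool.Agent.H669Z.Hech.Main
import Pool.Agent.H50Z.Hur.Main

/-!
# A Hurewicz concentrated set which is not productively Hurewicz
-/

set_option autoImplicit false

namespace Pool.Agent.H50Z.Twin

open Pool.Agent.Helper292.ForceCH Pool.Agent.H669Z.Hech Pool.Agent.H50Z.Hur Cardinal Set

def pt (d : ℕ → ℕ) : ℕ → ℕ
  | 0 => 0
  | j + 1 => pt d j + d (pt d j) + 2

theorem pt_lt (d : ℕ → ℕ) : StrictMono (pt d) :=
  strictMono_nat_of_lt_succ fun j => by simp only [pt]; omega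

theorem exists_blk (d : ℕ → ℕ) (n : ℕ) : ∃ j, n < pt d (j + 1) :=
  ⟨n, lt_of_lt_of_le (Nat.lt_succ_self n) (pt_lt d).le_apply⟩

def blk (d : ℕ → ℕ) (n : ℕ) : ℕ := Nat.find (exists_blk d n)

theorem blk_eq {d : ℕ → ℕ} {j n : ℕ} (h1 : pt d j ≤ n) (h2 : n < pt d (j + 1)) : blk d n = j := by
  unfold blk
  rw [Nat.find_eq_iff]
  refine ⟨h2, fun i hi => ?_⟩
  have := (pt_lt d).monotone (show i + 1 ≤ j from hi)
  omega

theorem lt_blk (d : ℕ → ℕ) (n : ℕ) : n < pt d (blk d n + 1) := Nat.find_spec (exists_blk d n)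

theorem blk_le (d : ℕ → ℕ) (n : ℕ) : pt d (blk d n) ≤ n := by
  rcases h : blk d n with _ | j
  · simp [pt]
  · have := Nat.find_min (exists_blk d n) (m := j) (by unfold blk at h; omega)
    omega

def col (d : ℕ → ℕ) (n : ℕ) : Bool := (blk d n).bodd

theorem long {f d : ℕ → ℕ} (h : LeStar f d) (c : Bool) (N : ℕ) :
    ∃ n, N ≤ n ∧ ∀ i, n ≤ i → i < n + f n + 2 → col d i = c := by
  obtain ⟨m, hm⟩ := h
  let j := 2 * (N + m) + if c then 1 else 0
  have hj : j ≤ pt d j := (pt_lt d).le_apply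
  refine ⟨pt d j, by omega, fun i h1 h2 => ?_⟩
  have := hm (pt d j) (by omega)
  unfold col
  rw [blk_eq h1 (by simp only [pt]; omega)]
  cases c <;> simp [j]

theorem mono_blk {f d : ℕ → ℕ} (h : LeStar f d) (hf : ∀ n, n ≤ f n) :
    ∃ m, ∀ n, m ≤ n → ∃ n', n ≤ n' ∧ n' ≤ f n ∧ ∃ c, ∀ i, n' ≤ i → i < f n' → col d i = c := by
  obtain ⟨m, hm⟩ := h
  refine ⟨m, fun n hn => ?_⟩
  have a1 := lt_blk d n
  have a2 := blk_le d n
  by_cases hc : f n ≤ pt d (blk d n + 1)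
  · refine ⟨n, le_rfl, hf n, col d n, fun i h1 h2 => ?_⟩
    unfold col
    rw [blk_eq (j := blk d n) (by omega) (by omega)]
  · refine ⟨pt d (blk d n + 1), a1.le, by omega, (blk d n + 1).bodd, fun i h1 h2 => ?_⟩
    have := hm (pt d (blk d n + 1)) (by omega)
    unfold col
    rw [blk_eq h1 (by rw [pt]; omega)]

def hat (r : ℕ → Bool) : Cantor := fun n => decide (n % 2 = 0) || r (n / 2)

def zz (d : ℕ → ℕ) (r : ℕ → Bool) : Cantor := fun n => col d n && hat r n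

def Tail (y : Cantor) : Set Cantor := {x | ∃ N, ∀ i, N ≤ i → x i = y i}

theorem countable_tail (y : Cantor) : (Tail y).Countable := by
  have : Tail y = ⋃ N, {x | ∀ i, N ≤ i → x i = y i} := by
    ext x; simp [Tail]
  rw [this]
  refine countable_iUnion fun N => Set.Finite.countable ?_
  refine Set.Finite.of_finite_image (f := fun x (i : Fin N) => x i) (toFinite _) ?_
  intro x hx x' hx' h
  funext i
  by_cases hi : i < N
  · exact congrFun h ⟨i, hi⟩
  · rw [hx i (by omega), hx' i (by omega)]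

theorem isOpen_of_cyl {S : Set Cantor}
    (h : ∀ x ∈ S, ∃ M, ∀ x', (∀ i < M, x' i = x i) → x' ∈ S) : IsOpen S := by
  rw [isOpen_iff_forall_mem_open]
  intro x hx
  obtain ⟨M, hM⟩ := h x hx
  exact ⟨PiNat.cylinder x M, fun x' hx' => hM x' hx', PiNat.isOpen_cylinder _ x M,
    PiNat.self_mem_cylinder x M⟩

theorem cover_bound {K : Set Cantor} (hK : IsClosed K) (O : ℕ → Set Cantor)
    (hO : ∀ M, IsOpen (O M)) (hm : Monotone O) (hc : K ⊆ ⋃ M, O M) : ∃ M, K ⊆ O M :=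
  hK.isCompact.elim_directed_cover O hO hc hm.directed_le

def Cap (W : Set Cantor) (y : Cantor) (n M : ℕ) : Prop :=
  ∀ x : Cantor, (∀ i, n ≤ i → i < M → x i = y i) → x ∈ W

theorem Cap.mono {W : Set Cantor} {y : Cantor} {n M M' : ℕ} (h : Cap W y n M) (hM : M ≤ M') :
    Cap W y n M' := fun x hx => h x fun i h1 h2 => hx i h1 (by omega)

theorem exists_cap {W : Set Cantor} (hW : IsOpen W) {y : Cantor} {n : ℕ}
    (h : ∀ x : Cantor, (∀ i, n ≤ i → x i = y i) → x ∈ W) : ∃ M, Cap W y n M := by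
  obtain ⟨M, hM⟩ := cover_bound hW.isClosed_compl
    (fun M => {x | ∃ i, n ≤ i ∧ i < M ∧ x i ≠ y i})
    (fun M => isOpen_of_cyl (by
      rintro x ⟨i, h1, h2, h3⟩
      exact ⟨M, fun x' hx' => ⟨i, h1, h2, by rwa [hx' i h2]⟩⟩))
    (by
      rintro M M' hM x ⟨i, h1, h2, h3⟩
      exact ⟨i, h1, by omega, h3⟩)
    (by
      intro x hx
      by_contra hc
      simp only [mem_iUnion, mem_ofPred_eq, not_exists, not_and, not_not] at hc
      exact hx (h x fun i hi => hc (i + 1) i hi (by omega)))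
  refine ⟨M, fun x hx => ?_⟩
  by_contra hc
  obtain ⟨i, h1, h2, h3⟩ := hM hc
  exact h3 (hx i h1 h2)

theorem bound_lt {ι : Type} (h : #ι < boundingNumber) (c : ι → ℕ → ℕ) :
    ∃ g, ∀ i, LeStar (c i) g := by
  by_contra hc
  have : boundingNumber ≤ #(range c) := csInf_le' ⟨range c, by
    rintro ⟨g, hg⟩
    exact hc ⟨g, fun i => leStar_iff.2 (hg _ ⟨i, rfl⟩)⟩, rfl⟩
  exact absurd (this.trans mk_range_le) (not_le.2 h)

section
variable {K : Type} [LinearOrder K] (d : K → ℕ → ℕ) (a : Om × Bool → ℕ → Bool) (r : K → ℕ → Bool)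

def Sm (b : Bool) : Set Cantor := Tail (fun _ => false) ∪ ⋃ α, Tail (hat (a (α, b)))

def XX (b : Bool) : Set Cantor := Sm a b ∪ range fun k => zz (d k) (r k)

def RR (b : Bool) (k : K) : Set Cantor := Sm a b ∪ (fun k => zz (d k) (r k)) '' Iio k

theorem card_RR (hK : Short K) (b : Bool) (k : K) : #(RR d a r b k) ≤ ℵ₁ := by
  have hOm : #Om = ℵ₁ := by simp
  have h0 := aleph0_le_aleph 1
  have hT : ∀ y, #(Tail y) ≤ ℵ₁ := fun y =>
    (mk_le_aleph0_iff.2 (countable_tail y).to_subtype).trans h0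
  refine (mk_union_le _ _).trans (add_le_of_le h0 ((mk_union_le _ _).trans
    (add_le_of_le h0 (hT _) ((mk_iUnion_le _).trans ?_))) (mk_image_le.trans ?_))
  · rw [hOm]
    exact mul_le_of_le h0 le_rfl (ciSup_le' fun α => hT _)
  · obtain ⟨e, he⟩ := hK k
    exact (mk_le_mk_of_subset (t := range e) fun j hj => he j hj).trans (mk_range_le.trans hOm.le)

variable {d a r}

theorem no_bound (hd : ∀ f : ℕ → ℕ, ∃ k₀, ∀ k, k₀ ≤ k → LeStar f (d k)) (g : ℕ → ℕ) :
    ¬ ∀ k, ∃ m, ∀ n, m ≤ n → ∃ i, n ≤ 2 * i ∧ 2 * i < g n ∧ zz (d k) (r k) (2 * i) = false := by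
  intro h
  obtain ⟨k, hk⟩ := hd g
  obtain ⟨m, hm⟩ := h k
  obtain ⟨n, h1, h2⟩ := long (hk k le_rfl) true m
  obtain ⟨i, h3, h4, h5⟩ := hm n h1
  simp [zz, hat, h2 (2 * i) h3 (by omega)] at h5

theorem zz_often (d : ℕ → ℕ) (r : ℕ → Bool) (n : ℕ) : ∃ i, n ≤ 2 * i ∧ zz d r (2 * i) = false := by
  obtain ⟨n', h1, h2⟩ := long (f := d) (d := d) ⟨0, fun _ _ => le_rfl⟩ false n
  exact ⟨(n' + 1) / 2, by omega, by simp [zz, h2 (2 * ((n' + 1) / 2)) (by omega) (by omega)]⟩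

theorem conc (hb : ℵ₁ < boundingNumber) (hK : Short K)
    (hd : ∀ f : ℕ → ℕ, ∃ k₀, ∀ k, k₀ ≤ k → LeStar f (d k)) (b : Bool) :
    IsConcentrated boundingNumber (XX d a r b) := by
  refine ⟨Tail fun _ => false, countable_tail _, fun x hx => Or.inl (Or.inl hx), ?_,
    fun U hU hAU => ?_⟩
  · by_contra hc
    have h1 : #(range fun k => zz (d k) (r k)) < boundingNumber :=
      (mk_le_mk_of_subset subset_union_right).trans_lt (not_le.1 hc)
    have h2 : ∀ (x : range fun k => zz (d k) (r k)) n, ∃ M, ∃ i, n ≤ 2 * i ∧ 2 * i < M ∧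
        x.1 (2 * i) = false := by
      rintro ⟨_, k, rfl⟩ n
      obtain ⟨i, h3, h4⟩ := zz_often (d k) (r k) n
      exact ⟨2 * i + 1, i, h3, by omega, h4⟩
    choose c hc using h2
    obtain ⟨g, hg⟩ := bound_lt h1 c
    refine no_bound (r := r) hd g fun k => ?_
    obtain ⟨m, hm⟩ := hg ⟨_, k, rfl⟩
    refine ⟨m, fun n hn => ?_⟩
    obtain ⟨i, h3, h4, h5⟩ := hc ⟨_, k, rfl⟩ n
    exact ⟨i, h3, h4.trans_le (hm n hn), h5⟩
  · choose c hc using fun n => exists_cap hU (y := fun _ => false) (n := n)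
      fun x hx => hAU ⟨n, hx⟩
    obtain ⟨k₀, hk⟩ := hd c
    refine lt_of_le_of_lt ((mk_le_mk_of_subset ?_).trans (card_RR d a r hK b k₀)) hb
    rintro x ⟨hx | ⟨k, rfl⟩, hxU⟩
    · exact Or.inl hx
    · refine Or.inr ⟨k, ?_, rfl⟩
      by_contra hk'
      obtain ⟨n, -, h2⟩ := long (hk k (not_lt.1 hk')) false 0
      exact hxU (hc n _ fun i h3 h4 => by simp [zz, h2 i h3 (by omega)])

theorem sep_XX (hb : ℵ₁ < boundingNumber) (hK : Short K)
    (hd : ∀ f : ℕ → ℕ, ∃ k₀, ∀ k, k₀ ≤ k → LeStar f (d k)) (b : Bool)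
    (hr : ∀ U : ℕ → Set (List Bool), (∀ α, Avoids (a (α, b)) U) →
      ∃ k₀, ∀ k, k₀ ≤ k → Avoids (r k) U) : Sep (XX d a r b) := by
  intro G hG hXG
  obtain ⟨W0, hW0, rfl⟩ := hG.eq_iInter_nat
  let W : ℕ → Set Cantor := fun n => ⋂ k ∈ Finset.range (n + 1), W0 k
  have hWo : ∀ n, IsOpen (W n) := fun n => isOpen_biInter_finset fun k _ => hW0 k
  have hWa : ∀ {n n'}, n ≤ n' → W n' ⊆ W n := fun {n n'} h x hx => by
    simp only [W, mem_iInter, Finset.mem_range] at hx ⊢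
    exact fun k hk => hx k (by omega)
  have hXW : ∀ n, XX d a r b ⊆ W n := fun n x hx => by
    simp only [W, mem_iInter]
    exact fun k _ => mem_iInter.1 (hXG hx) k
  have hOm : #Om = ℵ₁ := by simp
  choose c0 hc0 using fun n => exists_cap (hWo n) (y := fun _ => false) (n := n)
    fun x hx => hXW n (Or.inl (Or.inl ⟨n, hx⟩))
  choose c1 hc1 using fun α n => exists_cap (hWo n) (y := hat (a (α, b))) (n := n)
    fun x hx => hXW n (Or.inl (Or.inr (mem_iUnion.2 ⟨α, n, hx⟩)))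
  obtain ⟨g, hg⟩ := bound_lt (hOm ▸ hb) c1
  let f : ℕ → ℕ := fun n => (Finset.range (n + 1)).sup (fun i => g i + c0 i) + n
  have hfm : Monotone f := fun n n' h => add_le_add
    (Finset.sup_mono (Finset.range_mono (by omega))) h
  have hf1 : ∀ n, g n + c0 n + n ≤ f n := fun n => by
    have : g n + c0 n ≤ (Finset.range (n + 1)).sup (fun i => g i + c0 i) :=
      Finset.le_sup (f := fun i => g i + c0 i) (Finset.mem_range.2 (Nat.lt_succ_self n))
    simp only [f]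
    omega
  obtain ⟨k0, hk0⟩ := hr (fun N => {s | ∀ y : ℕ → Bool, (∀ m : Fin s.length, y m = s.get m) →
      ∃ n, N ≤ n ∧ ¬ Cap (W n) (hat y) n (f n)}) (by
    intro α
    obtain ⟨m, hm⟩ := hg α
    refine ⟨m, ?_⟩
    rintro ⟨s, h1, h2⟩
    obtain ⟨n, h3, h4⟩ := h1 _ h2
    exact h4 ((hc1 α n).mono ((hm n h3).trans (by have := hf1 n; omega))))
  obtain ⟨k1, hk1⟩ := hd f
  have h2 : ∀ (y : RR d a r b (max k0 k1)) n, ∃ M, Cap (W n) y.1 0 M := by
    intro y n
    refine exists_cap (hWo n) fun x hx => hXW n ?_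
    have : x = y.1 := funext fun i => hx i (Nat.zero_le _)
    rw [this]
    rcases y.2 with h | ⟨k, -, h⟩
    · exact Or.inl h
    · exact Or.inr ⟨k, h⟩
  choose c2 hc2 using h2
  obtain ⟨g', hg'⟩ := bound_lt ((card_RR d a r hK b (max k0 k1)).trans_lt hb) c2
  refine ⟨fun N => {x | ∀ n, N ≤ n → Cap (W n) x 0 (f (f n) + g' n)}, fun N => ?_, ?_, ?_⟩
  · rw [← isOpen_compl_iff]
    refine isOpen_of_cyl fun x hx => ?_
    simp only [mem_compl_iff, mem_ofPred_eq, not_forall] at hx ⊢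
    obtain ⟨n, h1, h2⟩ := hx
    refine ⟨f (f n) + g' n, fun x' hx' => ⟨n, h1, fun hc => h2 fun y hy => hc y ?_⟩⟩
    intro i h3 h4
    rw [hy i h3 h4, hx' i h4]
  · intro x hx
    by_cases hR : x ∈ RR d a r b (max k0 k1)
    · obtain ⟨m, hm⟩ := hg' ⟨x, hR⟩
      exact mem_iUnion.2 ⟨m, fun n hn => (hc2 ⟨x, hR⟩ n).mono ((hm n hn).trans (by omega))⟩
    · rcases hx with hx | ⟨k, rfl⟩
      · exact absurd (Or.inl hx) hR
      have hk : max k0 k1 ≤ k := not_lt.1 fun h => hR (Or.inr ⟨k, h, rfl⟩)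
      obtain ⟨N, hN⟩ := hk0 k ((le_max_left _ _).trans hk)
      have hcap : ∀ n, N ≤ n → Cap (W n) (hat (r k)) n (f n) := by
        intro n hn
        by_contra hc
        refine hN ⟨List.ofFn fun m : Fin (f n) => r k m, fun y hy => ⟨n, hn, fun h => hc ?_⟩,
          fun m => by simp only [List.get_eq_getElem, List.getElem_ofFn]⟩
        intro x hx
        refine h x fun i h3 h4 => ?_
        rw [hx i h3 h4]
        have h5 := hy ⟨i / 2, by simp; omega⟩
        simp only [List.get_eq_getElem, List.getElem_ofFn] at h5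
        simp only [hat, h5]
      obtain ⟨m, hm⟩ := mono_blk (hk1 k ((le_max_right _ _).trans hk))
        (fun n => by have := hf1 n; omega)
      refine mem_iUnion.2 ⟨N + m, fun n hn x hx => ?_⟩
      obtain ⟨n', h1, h2, c, h3⟩ := hm n (by omega)
      have h4 := hfm h2
      refine hWa h1 ?_
      cases c
      · refine hc0 n' x fun i h5 h6 => ?_
        have := hf1 n'
        rw [hx i (Nat.zero_le _) (by omega)]
        simp [zz, h3 i h5 (by omega)]
      · refine hcap n' (by omega) x fun i h5 h6 => ?_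
        rw [hx i (Nat.zero_le _) (by omega)]
        simp [zz, h3 i h5 h6]
  · intro x hx
    obtain ⟨N, hN⟩ := mem_iUnion.1 hx
    refine mem_iInter.2 fun k => ?_
    have := hN (N + k) (by omega) x fun _ _ _ => rfl
    simp only [W, mem_iInter, Finset.mem_range] at this
    exact this k (by omega)

theorem not_prod (hd : ∀ f : ℕ → ℕ, ∃ k₀, ∀ k, k₀ ≤ k → LeStar f (d k))
    (ha : ∀ α β m, ∃ n c, m ≤ n ∧ a (α, false) n = c ∧ a (β, true) n = !c) :
    ¬ IsHurewicz (XX d a r false × XX d a r true) := by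
  intro h
  let O : ℕ → ℕ → Set Cantor := fun n M => {x | ∃ i, n ≤ 2 * i ∧ 2 * i < M ∧ x (2 * i) = false}
  have hO : ∀ n M, IsOpen (O n M) := fun n M => isOpen_of_cyl (by
    rintro x ⟨i, h1, h2, h3⟩
    exact ⟨M, fun x' hx' => ⟨i, h1, h2, by rwa [hx' _ h2]⟩⟩)
  have hgood : ∀ b, ∀ x ∈ XX d a r b, (∀ n, x ∈ ⋃ M, O n M) ∨ ∃ α, x ∈ Tail (hat (a (α, b))) := by
    rintro b x ((⟨N, hN⟩ | hx) | ⟨k, rfl⟩)
    · exact Or.inl fun n => mem_iUnion.2 ⟨2 * (N + n) + 1, N + n, by omega, by omega,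
        hN _ (by omega)⟩
    · exact Or.inr (mem_iUnion.1 hx)
    · refine Or.inl fun n => ?_
      obtain ⟨i, h1, h2⟩ := zz_often (d k) (r k) n
      exact mem_iUnion.2 ⟨2 * i + 1, i, h1, by omega, h2⟩
  obtain ⟨L, hL1, hL2, hL3⟩ := sep_of_hurewicz (M := Cantor × Cantor)
    (fun p : XX d a r false × XX d a r true => (p.1.1, p.2.1)) (by fun_prop) h
    (⋂ n, {p | p.1 ≠ p.2} ∪ Prod.fst ⁻¹' ⋃ M, O n M)
    (IsGδ.iInter_of_isOpen fun n => (isOpen_ne_fun continuous_fst continuous_snd).union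
      ((isOpen_iUnion (hO n)).preimage continuous_fst)) (by
      rintro _ ⟨⟨x, y⟩, rfl⟩
      refine mem_iInter.2 fun n => ?_
      by_cases hxy : x.1 = y.1
      · right
        rcases hgood _ _ x.2 with h1 | ⟨α, N, h1⟩
        · exact h1 n
        rcases hgood _ _ y.2 with h2 | ⟨β, N', h2⟩
        · rw [← hxy] at h2
          exact h2 n
        obtain ⟨j, c, h3, h4, h5⟩ := ha α β (N + N')
        have e1 := h1 (2 * j + 1) (by omega)
        have e2 := h2 (2 * j + 1) (by omega)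
        rw [← hxy, e1] at e2
        have e3 : (2 * j + 1) / 2 = j := by omega
        simp [hat, e3, h4, h5] at e2
      · exact Or.inl hxy)
  have hK : ∀ n, ∃ M, (⋃ m ∈ Finset.range (n + 1), {x : Cantor | (x, x) ∈ L m}) ⊆ O n M := by
    intro n
    refine cover_bound (isClosed_biUnion_finset fun m _ => (hL1 m).preimage (by fun_prop))
      (O n) (hO n) ?_ ?_
    · rintro M M' hM x ⟨i, h1, h2, h3⟩
      exact ⟨i, h1, by omega, h3⟩
    · intro x hx
      simp only [mem_iUnion, mem_ofPred_eq] at hx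
      obtain ⟨m, -, hm⟩ := hx
      rcases mem_iInter.1 (hL3 (mem_iUnion.2 ⟨m, hm⟩)) n with h1 | h1
      · exact absurd rfl h1
      · exact h1
  choose g hg using hK
  refine no_bound (r := r) hd g fun k => ?_
  obtain ⟨m, hm⟩ := mem_iUnion.1 (hL2 ⟨(⟨_, Or.inr ⟨k, rfl⟩⟩, ⟨_, Or.inr ⟨k, rfl⟩⟩), rfl⟩)
  exact ⟨m, fun n hn => hg n (mem_iUnion₂.2 ⟨m, Finset.mem_range.2 (by omega), hm⟩)⟩

end

theorem ground (K : Type) [LinearOrder K] (hK : Short K) (h1 : Bounded) (h2 : Scale K)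
    (h3 : Twin K) : ∃ X : Set Cantor, IsHurewicz X ∧ IsConcentrated boundingNumber X ∧
      ¬ IsProductivelyHurewicz X := by
  obtain ⟨d, hd1, hd2⟩ := h2
  obtain ⟨a, r, ha, hr⟩ := h3
  have hb := aleph_lt_b h1
  have hd : ∀ f : ℕ → ℕ, ∃ k₀, ∀ k, k₀ ≤ k → LeStar f (d k) := fun f => by
    obtain ⟨k, hk⟩ := hd2 f
    exact ⟨k, fun k' hk' => leStar_trans hk (hd1 _ _ hk')⟩
  have hH : ∀ b, IsHurewicz (XX d a r b) := fun b =>
    hurewicz_of_sep Subtype.val Topology.IsInducing.subtypeVal (by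
      rw [Subtype.range_coe]
      exact sep_XX hb hK hd b fun U => hr U b)
  exact ⟨XX d a r false, hH _, conc hb hK hd _, fun h => not_prod hd ha (h _ (hH true))⟩

end Pool.Agent.H50Z.Twin
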